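import Pool.Agent.R489.HB.Stm

set_option autoImplicit false

namespace Pool.Agent.R991.HB

open Finset Pool.Agent.R489.HB

theorem col3 : ∀ i p q r : Fin 3, p ≠ q → p ≠ r → q ≠ r → i = p ∨ i = q ∨ i = r := by decide

section

variable {W : Type} [DecidableEq W]

theorem vec_notMem (T : Finset W) (a : W → Fin 3) (i : Fin 3) (e : Finset W) (x : W)
    (h : x ∉ e) : vec T a i e x = 0 := by
  unfold vec
  rw [if_neg]
  exact fun h' => h h'.1

theorem vec_sub (T : Finset W) (a : W → Fin 3) (i : Fin 3) (e : Finset W) (h : e ⊆ T) :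
    vec T a i e = 0 := by
  funext x
  unfold vec
  rw [if_neg]
  · rfl
  · exact fun h' => h'.2.1 (h h'.1)

theorem vec_one (T : Finset W) (a : W → Fin 3) (i : Fin 3) (v x : W) (hv : v ∉ T)
    (hx : a x ≠ i) : vec T a i {v, x} v = 1 := by
  unfold vec
  rw [if_pos]
  refine ⟨by simp, hv, ?_⟩
  by_cases h : a v = i
  · exact Or.inr ⟨h, x, by simp, hx⟩
  · left
    intro y hy
    rw [mem_insert, mem_singleton] at hy
    rcases hy with rfl | rfl
    exacts [h, hx]

theorem vec_zero (T : Finset W) (a : W → Fin 3) (i : Fin 3) (v x : W) (hv : a v ≠ i)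
    (hx : a x = i) : vec T a i {v, x} v = 0 := by
  unfold vec
  rw [if_neg]
  rintro ⟨-, -, h | h⟩
  · exact h x (by simp) hx
  · exact hv h.1

theorem vec_out (T : Finset W) (a : W → Fin 3) (i : Fin 3) (q r : W) (hq : a q ≠ i)
    (hr : a r ≠ i) (w : W) :
    vec T a i {q, r} w = if (w = q ∨ w = r) ∧ w ∉ T then 1 else 0 := by
  unfold vec
  have h1 : ∀ y ∈ ({q, r} : Finset W), a y ≠ i := by
    intro y hy
    rw [mem_insert, mem_singleton] at hy
    rcases hy with rfl | rfl
    exacts [hq, hr]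
  have h2 : (w ∈ ({q, r} : Finset W) ∧ w ∉ T ∧ ((∀ y ∈ ({q, r} : Finset W), a y ≠ i) ∨
      (a w = i ∧ ∃ y ∈ ({q, r} : Finset W), a y ≠ i))) ↔ ((w = q ∨ w = r) ∧ w ∉ T) := by
    rw [mem_insert, mem_singleton]
    constructor
    · exact fun h => ⟨h.1, h.2.1⟩
    · exact fun h => ⟨h.1, h.2, Or.inl h1⟩
  exact if_congr h2 rfl rfl

theorem vec_in (T : Finset W) (a : W → Fin 3) (i : Fin 3) (p q : W) (hp : a p ≠ i)
    (hq : a q = i) (w : W) :
    vec T a i {p, q} w = if w = q ∧ w ∉ T then 1 else 0 := by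
  unfold vec
  have h2 : (w ∈ ({p, q} : Finset W) ∧ w ∉ T ∧ ((∀ y ∈ ({p, q} : Finset W), a y ≠ i) ∨
      (a w = i ∧ ∃ y ∈ ({p, q} : Finset W), a y ≠ i))) ↔ (w = q ∧ w ∉ T) := by
    rw [mem_insert, mem_singleton]
    constructor
    · rintro ⟨h0, h1, h | h⟩
      · exact absurd hq (h q (by simp))
      · refine ⟨?_, h1⟩
        rcases h0 with rfl | rfl
        · exact absurd h.1 hp
        · rfl
    · rintro ⟨rfl, h1⟩
      exact ⟨Or.inr rfl, h1, Or.inr ⟨hq, p, by simp, hp⟩⟩
  exact if_congr h2 rfl rfl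

theorem vec_eq (T : Finset W) (a : W → Fin 3) (i : Fin 3) (p p' q : W) (hp : a p ≠ i)
    (hp' : a p' ≠ i) (hq : a q = i) : vec T a i {p, q} = vec T a i {p', q} := by
  funext w
  rw [vec_in T a i p q hp hq, vec_in T a i p' q hp' hq]

theorem vec_add (T : Finset W) (a : W → Fin 3) (i : Fin 3) (p x y : W) (hpx : p ≠ x)
    (hpy : p ≠ y) (hxy : x ≠ y) (hp : a p ≠ i) (hx : a x ≠ i) (hy : a y ≠ i) :
    vec T a i {p, x} + vec T a i {p, y} = vec T a i {x, y} := by
  funext w
  rw [Pi.add_apply, vec_out T a i p x hp hx, vec_out T a i p y hp hy, vec_out T a i x y hx hy]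
  have h11 : (1 : ZMod 2) + 1 = 0 := by decide
  by_cases hw : w ∈ T
  · simp [hw]
  · by_cases h1 : w = p
    · subst h1
      simp [hw, hpx, hpy, h11]
    · by_cases h2 : w = x
      · subst h2
        simp [hw, hxy, h1]
      · by_cases h3 : w = y
        · subst h3
          simp [hw, h1, h2]
        · simp [h1, h2, h3]

/-- Coordinates on a span. -/
theorem span_coord {f : Finset W → W → ZMod 2} {S : Set (Finset W)} {v : W}
    (h0 : ∀ e ∈ S, f e v = 0) {x : W → ZMod 2} (hx : x ∈ Submodule.span (ZMod 2) (f '' S)) :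
    x v = 0 := by
  have h1 : Submodule.span (ZMod 2) (f '' S) ≤
      LinearMap.ker (LinearMap.proj (R := ZMod 2) (φ := fun _ : W => ZMod 2) v) := by
    rw [Submodule.span_le]
    rintro _ ⟨e, he, rfl⟩
    exact h0 e he
  exact h1 hx

theorem ins_coord {f : Finset W → W → ZMod 2} {S : Set (Finset W)} {g : Finset W} {v : W}
    (hS : LinearIndepOn (ZMod 2) f S) (h0 : ∀ e ∈ S, f e v = 0) (h1 : f g v = 1) :
    LinearIndepOn (ZMod 2) f (insert g S) := by
  refine hS.insert ?_
  intro h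
  have h2 := span_coord h0 h
  rw [h1] at h2
  exact one_ne_zero h2

/-- Two elements with coordinate one. -/
theorem ins_two {f : Finset W → W → ZMod 2} {S : Set (Finset W)} {g g' : Finset W} {v : W}
    (hS : LinearIndepOn (ZMod 2) f S) (h0 : ∀ e ∈ S, f e v = 0) (h1 : f g v = 1)
    (h2 : f g' v = 1) (h3 : f g + f g' ∉ Submodule.span (ZMod 2) (f '' S)) :
    LinearIndepOn (ZMod 2) f (insert g' (insert g S)) := by
  refine (ins_coord hS h0 h1).insert ?_
  intro h
  rw [Set.image_insert_eq, Submodule.mem_span_insert] at h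
  obtain ⟨t, z, hz, hzt⟩ := h
  have h4 := congrFun hzt v
  rw [Pi.add_apply, Pi.smul_apply, h1, h2, span_coord h0 hz, smul_eq_mul, mul_one, add_zero] at h4
  rw [← h4, one_smul] at hzt
  apply h3
  have h5 : f g + f g' = z := by
    rw [hzt, ← add_assoc]
    have : f g + f g = 0 := by
      funext w
      exact CharTwo.add_self_eq_zero _
    rw [this, zero_add]
  rw [h5]
  exact hz

/-- The old inner edges of a colour. -/
def S0 (Φ : Finset (Finset W)) (T : Finset W) (v : W) (c : Finset W → Fin 3) (i : Fin 3) :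
    Set (Finset W) := {e | e ∈ edg Φ ∧ v ∉ e ∧ ¬ e ⊆ T ∧ c e = i}

theorem S0_coord (Φ : Finset (Finset W)) (T : Finset W) (a : W → Fin 3) (v : W)
    (c : Finset W → Fin 3) (i j : Fin 3) : ∀ e ∈ S0 Φ T v c i, vec T a j e v = 0 :=
  fun e he => vec_notMem T a j e v he.2.1

/-- The recolouring. -/
def rec4 (v y1 y2 z1 z2 : W) (k1 k2 k3 k4 : Fin 3) (c : Finset W → Fin 3) (e : Finset W) :
    Fin 3 :=
  if e = {v, y1} then k1 else if e = {v, y2} then k2 else if e = {v, z1} then k3 else
    if e = {v, z2} then k4 else c e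

theorem cover (Φ : Finset (Finset W)) (T : Finset W) (v y1 y2 z1 z2 : W) (k1 k2 k3 k4 : Fin 3)
    (c : Finset W → Fin 3) (i : Fin 3)
    (hE : ∀ e ∈ edg Φ, v ∈ e → e = {v, y1} ∨ e = {v, y2} ∨ e = {v, z1} ∨ e = {v, z2})
    (e : Finset W) (he : e ∈ edg Φ) (heT : ¬ e ⊆ T)
    (hc : rec4 v y1 y2 z1 z2 k1 k2 k3 k4 c e = i) :
    e ∈ S0 Φ T v c i ∨ (e = {v, y1} ∧ k1 = i) ∨ (e = {v, y2} ∧ k2 = i) ∨
      (e = {v, z1} ∧ k3 = i) ∨ (e = {v, z2} ∧ k4 = i) := by
  unfold rec4 at hc
  by_cases h1 : e = {v, y1}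
  · rw [if_pos h1] at hc
    exact Or.inr (Or.inl ⟨h1, hc⟩)
  rw [if_neg h1] at hc
  by_cases h2 : e = {v, y2}
  · rw [if_pos h2] at hc
    exact Or.inr (Or.inr (Or.inl ⟨h2, hc⟩))
  rw [if_neg h2] at hc
  by_cases h3 : e = {v, z1}
  · rw [if_pos h3] at hc
    exact Or.inr (Or.inr (Or.inr (Or.inl ⟨h3, hc⟩)))
  rw [if_neg h3] at hc
  by_cases h4 : e = {v, z2}
  · rw [if_pos h4] at hc
    exact Or.inr (Or.inr (Or.inr (Or.inr ⟨h4, hc⟩)))
  rw [if_neg h4] at hc
  refine Or.inl ⟨he, fun hv => ?_, heT, hc⟩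
  rcases hE e he hv with h | h | h | h
  exacts [h1 h, h2 h, h3 h, h4 h]

/-- The case where the new edge has the colour of the `z`s. -/
theorem case1 (Φ : Finset (Finset W)) (T : Finset W) (a : W → Fin 3) (v y1 y2 z1 z2 : W)
    (c : Finset W → Fin 3) (hvT : v ∉ T) (hy : y1 ≠ y2) (ay : a y1 = a y2) (az : a z1 = a z2)
    (vy : a v ≠ a y1) (vz : a v ≠ a z1) (yz : a y1 ≠ a z1)
    (hE : ∀ e ∈ edg Φ, v ∈ e → e = {v, y1} ∨ e = {v, y2} ∨ e = {v, z1} ∨ e = {v, z2})
    (hB : ∀ i, LinearIndepOn (ZMod 2) (vec T a i) (S0 Φ T v c i))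
    (hs : vec T a (a z1) {y1, y2} ∉
      Submodule.span (ZMod 2) (vec T a (a z1) '' S0 Φ T v c (a z1))) : RD Φ T a := by
  have hvy1 : v ≠ y1 := fun h => vy (by rw [h])
  have hvy2 : v ≠ y2 := fun h => vy (by rw [h, ay])
  refine ⟨rec4 v y1 y2 z1 z2 (a z1) (a z1) (a v) (a y1) c, fun i => ?_⟩
  rcases col3 i (a v) (a y1) (a z1) vy vz yz with rfl | rfl | rfl
  · refine LinearIndepOn.mono (ins_coord (g := {v, z1}) (hB (a v)) (S0_coord Φ T a v c _ _)
      (vec_one T a _ v z1 hvT vz.symm)) ?_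
    rintro e ⟨he, heT, hc⟩
    rcases cover Φ T v y1 y2 z1 z2 _ _ _ _ c _ hE e he heT hc with h | h | h | h | h
    · exact Or.inr h
    · exact absurd h.2 vz.symm
    · exact absurd h.2 vz.symm
    · exact Or.inl h.1
    · exact absurd h.2 vy.symm
  · refine LinearIndepOn.mono (ins_coord (g := {v, z2}) (hB (a y1)) (S0_coord Φ T a v c _ _)
      (vec_one T a _ v z2 hvT (by rw [← az]; exact yz.symm))) ?_
    rintro e ⟨he, heT, hc⟩
    rcases cover Φ T v y1 y2 z1 z2 _ _ _ _ c _ hE e he heT hc with h | h | h | h | h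
    · exact Or.inr h
    · exact absurd h.2 yz.symm
    · exact absurd h.2 yz.symm
    · exact absurd h.2 vy
    · exact Or.inl h.1
  · refine LinearIndepOn.mono (ins_two (g := {v, y1}) (g' := {v, y2}) (hB (a z1))
      (S0_coord Φ T a v c _ _) (vec_one T a _ v y1 hvT yz)
      (vec_one T a _ v y2 hvT (by rw [← ay]; exact yz)) ?_) ?_
    · rw [vec_add T a _ v y1 y2 hvy1 hvy2 hy vz yz (by rw [← ay]; exact yz)]
      exact hs
    · rintro e ⟨he, heT, hc⟩
      rcases cover Φ T v y1 y2 z1 z2 _ _ _ _ c _ hE e he heT hc with h | h | h | h | h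
      · exact Or.inr (Or.inr h)
      · exact Or.inr (Or.inl h.1)
      · exact Or.inl h.1
      · exact absurd h.2 vz
      · exact absurd h.2 yz

/-- Moving the edge `d` to the colour `k`. -/
def mvc (d : Finset W) (k : Fin 3) (c : Finset W → Fin 3) (e : Finset W) : Fin 3 :=
  if e = d then k else c e

theorem S0_mv (Φ : Finset (Finset W)) (T : Finset W) (v : W) (c : Finset W → Fin 3)
    (d : Finset W) (k i : Fin 3) (e : Finset W) (he : e ∈ S0 Φ T v (mvc d k c) i) :
    (e = d ∧ k = i) ∨ (e ≠ d ∧ e ∈ S0 Φ T v c i) := by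
  obtain ⟨h1, h2, h3, h4⟩ := he
  unfold mvc at h4
  by_cases h : e = d
  · rw [if_pos h] at h4
    exact Or.inl ⟨h, h4⟩
  · rw [if_neg h] at h4
    exact Or.inr ⟨h, h1, h2, h3, h4⟩

/-- Replacing an edge by another one with the same vector. -/
theorem repl {f : Finset W → W → ZMod 2} {S : Set (Finset W)} {d g : Finset W}
    (hS : LinearIndepOn (ZMod 2) f S) (hd : d ∈ S) (hg : f g = f d) :
    LinearIndepOn (ZMod 2) f (insert g (S \ {d})) := by
  refine (hS.mono Set.diff_subset).insert ?_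
  rw [hg]
  have h1 : LinearIndepOn (ZMod 2) f (insert d (S \ {d})) := by
    rw [Set.insert_diff_singleton, Set.insert_eq_of_mem hd]
    exact hS
  exact h1.notMem_span_of_insert (fun h => h.2 rfl)

/-- The case where the new edge has the colour of `v`, after the choice of `y`. -/
theorem case2 (Φ : Finset (Finset W)) (T : Finset W) (a : W → Fin 3) (v y y' z1 z2 : W)
    (c : Finset W → Fin 3) (hvT : v ∉ T) (ay : a y = a y') (az : a z1 = a z2)
    (vy : a v ≠ a y) (vz : a v ≠ a z1) (yz : a y ≠ a z1)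
    (hE : ∀ e ∈ edg Φ, v ∈ e → e = {v, y} ∨ e = {v, y'} ∨ e = {v, z1} ∨ e = {v, z2})
    (hd : {z1, y} ∈ edg Φ)
    (hB : ∀ i, LinearIndepOn (ZMod 2) (vec T a i) (S0 Φ T v c i))
    (hs : vec T a (a v) {z1, y} ∉
      Submodule.span (ZMod 2) (vec T a (a v) '' S0 Φ T v c (a v))) : RD Φ T a := by
  have hvy : v ≠ y := fun h => vy (by rw [h])
  have hvz : v ≠ z1 := fun h => vz (by rw [h])
  have hvd : v ∉ ({z1, y} : Finset W) := by
    rw [mem_insert, mem_singleton]
    exact fun h => h.elim hvz hvy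
  have hdT : ¬ ({z1, y} : Finset W) ⊆ T := by
    intro h
    apply hs
    rw [vec_sub T a _ _ h]
    exact Submodule.zero_mem _
  have hdc : c {z1, y} ≠ a v := by
    intro h
    exact hs (Submodule.subset_span ⟨_, ⟨hd, hvd, hdT, h⟩, rfl⟩)
  have hα : LinearIndepOn (ZMod 2) (vec T a (a v)) (insert {z1, y} (S0 Φ T v c (a v))) :=
    (hB (a v)).insert hs
  have hα0 : ∀ e ∈ (insert {z1, y} (S0 Φ T v c (a v)) : Set (Finset W)),
      vec T a (a v) e v = 0 := by
    rintro e (rfl | he)
    · exact vec_notMem T a _ _ v hvd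
    · exact vec_notMem T a _ _ v he.2.1
  rcases col3 (c {z1, y}) (a v) (a y) (a z1) vy vz yz with hc0 | hc0 | hc0
  · exact absurd hc0 hdc
  · -- colour of the `y`s
    refine ⟨rec4 v y y' z1 z2 (a y) (a z1) (a v) (a y) (mvc {z1, y} (a v) c), fun i => ?_⟩
    rcases col3 i (a v) (a y) (a z1) vy vz yz with rfl | rfl | rfl
    · refine LinearIndepOn.mono (ins_coord (g := {v, z1}) hα hα0
        (vec_one T a _ v z1 hvT vz.symm)) ?_
      rintro e ⟨he, heT, hc⟩
      rcases cover Φ T v y y' z1 z2 _ _ _ _ _ _ hE e he heT hc with h | h | h | h | h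
      · rcases S0_mv Φ T v c _ _ _ e h with h' | h'
        · exact Or.inr (Or.inl h'.1)
        · exact Or.inr (Or.inr h'.2)
      · exact absurd h.2 vy.symm
      · exact absurd h.2 vz.symm
      · exact Or.inl h.1
      · exact absurd h.2 vy.symm
    · have h1 := repl (g := {v, y}) (hB (a y)) (show {z1, y} ∈ S0 Φ T v c (a y) from
        ⟨hd, hvd, hdT, hc0⟩) (vec_eq T a _ v z1 y vy yz.symm rfl)
      have h0 : ∀ e ∈ (insert {v, y} (S0 Φ T v c (a y) \ {{z1, y}}) : Set (Finset W)),
          vec T a (a y) e v = 0 := by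
        rintro e (rfl | he)
        · exact vec_zero T a _ v y vy rfl
        · exact vec_notMem T a _ _ v he.1.2.1
      refine LinearIndepOn.mono (ins_coord (g := {v, z2}) h1 h0
        (vec_one T a _ v z2 hvT (by rw [← az]; exact yz.symm))) ?_
      rintro e ⟨he, heT, hc⟩
      rcases cover Φ T v y y' z1 z2 _ _ _ _ _ _ hE e he heT hc with h | h | h | h | h
      · rcases S0_mv Φ T v c _ _ _ e h with h' | h'
        · exact absurd h'.2 vy
        · exact Or.inr (Or.inr ⟨h'.2, h'.1⟩)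
      · exact Or.inr (Or.inl h.1)
      · exact absurd h.2 yz.symm
      · exact absurd h.2 vy
      · exact Or.inl h.1
    · refine LinearIndepOn.mono (ins_coord (g := {v, y'}) (hB (a z1)) (S0_coord Φ T a v c _ _)
        (vec_one T a _ v y' hvT (by rw [← ay]; exact yz))) ?_
      rintro e ⟨he, heT, hc⟩
      rcases cover Φ T v y y' z1 z2 _ _ _ _ _ _ hE e he heT hc with h | h | h | h | h
      · rcases S0_mv Φ T v c _ _ _ e h with h' | h'
        · exact absurd h'.2 vz
        · exact Or.inr h'.2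
      · exact absurd h.2 yz
      · exact Or.inl h.1
      · exact absurd h.2 vz
      · exact absurd h.2 yz
  · -- colour of the `z`s
    refine ⟨rec4 v y y' z1 z2 (a z1) (a v) (a z1) (a y) (mvc {z1, y} (a v) c), fun i => ?_⟩
    rcases col3 i (a v) (a y) (a z1) vy vz yz with rfl | rfl | rfl
    · refine LinearIndepOn.mono (ins_coord (g := {v, y'}) hα hα0
        (vec_one T a _ v y' hvT (by rw [← ay]; exact vy.symm))) ?_
      rintro e ⟨he, heT, hc⟩
      rcases cover Φ T v y y' z1 z2 _ _ _ _ _ _ hE e he heT hc with h | h | h | h | h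
      · rcases S0_mv Φ T v c _ _ _ e h with h' | h'
        · exact Or.inr (Or.inl h'.1)
        · exact Or.inr (Or.inr h'.2)
      · exact absurd h.2 vz.symm
      · exact Or.inl h.1
      · exact absurd h.2 vz.symm
      · exact absurd h.2 vy.symm
    · refine LinearIndepOn.mono (ins_coord (g := {v, z2}) (hB (a y)) (S0_coord Φ T a v c _ _)
        (vec_one T a _ v z2 hvT (by rw [← az]; exact yz.symm))) ?_
      rintro e ⟨he, heT, hc⟩
      rcases cover Φ T v y y' z1 z2 _ _ _ _ _ _ hE e he heT hc with h | h | h | h | h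
      · rcases S0_mv Φ T v c _ _ _ e h with h' | h'
        · exact absurd h'.2 vy
        · exact Or.inr h'.2
      · exact absurd h.2 yz.symm
      · exact absurd h.2 vy
      · exact absurd h.2 yz.symm
      · exact Or.inl h.1
    · have h1 := repl (g := {v, z1}) (hB (a z1)) (show {z1, y} ∈ S0 Φ T v c (a z1) from
        ⟨hd, hvd, hdT, hc0⟩) (by
          rw [vec_eq T a _ v y z1 vz yz rfl, Finset.pair_comm])
      have h0 : ∀ e ∈ (insert {v, z1} (S0 Φ T v c (a z1) \ {{z1, y}}) : Set (Finset W)),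
          vec T a (a z1) e v = 0 := by
        rintro e (rfl | he)
        · exact vec_zero T a _ v z1 vz rfl
        · exact vec_notMem T a _ _ v he.1.2.1
      refine LinearIndepOn.mono (ins_coord (g := {v, y}) h1 h0
        (vec_one T a _ v y hvT yz)) ?_
      rintro e ⟨he, heT, hc⟩
      rcases cover Φ T v y y' z1 z2 _ _ _ _ _ _ hE e he heT hc with h | h | h | h | h
      · rcases S0_mv Φ T v c _ _ _ e h with h' | h'
        · exact absurd h'.2 vz
        · exact Or.inr (Or.inr ⟨h'.2, h'.1⟩)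
      · exact Or.inl h.1
      · exact absurd h.2 vz
      · exact Or.inr (Or.inl h.1)
      · exact absurd h.2 yz

end

theorem LD4 (hcone : S_CONE) : S_LD4 := by
  intro W _ Φ T a v y1 y2 z1 z2 hΦ hT h5 D hRD
  obtain ⟨hv, hvT, hy, hz, ay, az, vy, vz, yz, faces, non⟩ := D
  have hvy1 : v ≠ y1 := fun h => vy (by rw [h])
  have hvy2 : v ≠ y2 := fun h => vy (by rw [h, ay])
  have hvz1 : v ≠ z1 := fun h => vz (by rw [h])
  have hvz2 : v ≠ z2 := fun h => vz (by rw [h, az])
  have hyz11 : y1 ≠ z1 := fun h => yz (by rw [h])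
  have hyz12 : y1 ≠ z2 := fun h => yz (by rw [h, az])
  have hyz21 : y2 ≠ z1 := fun h => yz (by rw [ay, h])
  have hyz22 : y2 ≠ z2 := fun h => yz (by rw [ay, h, az])
  -- faces
  have hmem : ∀ f : Finset W, (f = {v, y1, z1} ∨ f = {v, y1, z2} ∨ f = {v, y2, z1} ∨
      f = {v, y2, z2}) → f ∈ Φ := by
    intro f hf
    have : f ∈ fc Φ {v} := by
      rw [faces]
      simpa using hf
    exact (mem_filter.1 this).1
  have hedg : ∀ (f : Finset W) (x y : W), f ∈ Φ → x ∈ f → y ∈ f → x ≠ y → {x, y} ∈ edg Φ := by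
    intro f x y hf hx hy hxy
    refine mem_biUnion.2 ⟨f, hf, mem_powersetCard.2 ⟨?_, card_pair hxy⟩⟩
    intro w hw
    rw [mem_insert, mem_singleton] at hw
    rcases hw with rfl | rfl
    exacts [hx, hy]
  have hE : ∀ e ∈ edg Φ, v ∈ e → e = {v, y1} ∨ e = {v, y2} ∨ e = {v, z1} ∨ e = {v, z2} := by
    intro e he hve
    obtain ⟨f, hf, hef⟩ := mem_biUnion.1 he
    rw [mem_powersetCard] at hef
    have hff : f ∈ fc Φ {v} := mem_filter.2 ⟨hf, by simpa using hef.1 hve⟩
    obtain ⟨x, hx⟩ : ∃ x, e.erase v = {x} := by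
      rw [← card_eq_one, card_erase_of_mem hve, hef.2]
    have he' : e = {v, x} := by rw [← insert_erase hve, hx]
    have hxv : x ≠ v := by
      have : x ∈ e.erase v := by rw [hx]; simp
      exact (mem_erase.1 this).1
    have hxf : x ∈ f := hef.1 (by rw [he']; simp)
    rw [he']
    rw [faces] at hff
    simp only [mem_insert, mem_singleton] at hff
    rcases hff with rfl | rfl | rfl | rfl <;> simp only [mem_insert, mem_singleton] at hxf <;>
      rcases hxf with h | h | h <;> first | exact absurd h hxv | (subst h; simp)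
  have e1 : {v, y1} ∈ edg Φ := hedg {v, y1, z1} v y1 (hmem _ (by simp)) (by simp) (by simp) hvy1
  have e2 : {v, y2} ∈ edg Φ := hedg {v, y2, z1} v y2 (hmem _ (by simp)) (by simp) (by simp) hvy2
  have e3 : {z1, y1} ∈ edg Φ :=
    hedg {v, y1, z1} z1 y1 (hmem _ (by simp)) (by simp) (by simp) hyz11.symm
  have e4 : {z1, y2} ∈ edg Φ :=
    hedg {v, y2, z1} z1 y2 (hmem _ (by simp)) (by simp) (by simp) hyz21.symm
  have hgood : Good Φ y1 v := by
    intro w hw1 hwv h1 h2
    have h3 := hE _ h2 (by simp)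
    have h4 : w ∈ ({v, w} : Finset W) := by simp
    rcases h3 with h | h | h | h
    · rw [h] at h4
      simp only [mem_insert, mem_singleton] at h4
      exact absurd h4 (fun h => h.elim hwv hw1)
    · rw [h] at h4
      simp only [mem_insert, mem_singleton] at h4
      rcases h4 with h4 | h4
      · exact absurd h4 hwv
      · rw [h4] at h1
        exact absurd h1 non
    · rw [h] at h4
      simp only [mem_insert, mem_singleton] at h4
      rcases h4 with h4 | h4
      · exact absurd h4 hwv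
      · subst h4
        apply hmem
        left
        ext x
        simp only [mem_insert, mem_singleton]
        tauto
    · rw [h] at h4
      simp only [mem_insert, mem_singleton] at h4
      rcases h4 with h4 | h4
      · exact absurd h4 hwv
      · subst h4
        apply hmem
        right; left
        ext x
        simp only [mem_insert, mem_singleton]
        tauto
  have hK := (hcone W Φ y1 v hΦ hvy1.symm (by rw [pair_comm]; exact e1) hgood h5).2
  have F1 : ∀ e ∈ edg Φ, v ∉ e → e ∈ edg (contr y1 v Φ) := by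
    intro e he hve
    rw [hK]
    refine mem_image.2 ⟨e, mem_erase.2 ⟨?_, he⟩, ?_⟩
    · rintro rfl
      exact hve (by simp)
    · unfold mv
      rw [if_neg hve]
  have F2 : {y1, y2} ∈ edg (contr y1 v Φ) := by
    rw [hK]
    refine mem_image.2 ⟨{v, y2}, mem_erase.2 ⟨?_, e2⟩, ?_⟩
    · intro h
      have : y2 ∈ ({y1, v} : Finset W) := by rw [← h]; simp
      rw [mem_insert, mem_singleton] at this
      exact this.elim hy.symm hvy2.symm
    · unfold mv
      rw [if_pos (by simp), erase_insert (by rw [mem_singleton]; exact hvy2)]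
  have hyT : ¬ ({y1, y2} : Finset W) ⊆ T := by
    intro h
    exact non (mem_biUnion.2 ⟨T, hT, mem_powersetCard.2 ⟨h, card_pair hy⟩⟩)
  obtain ⟨c, hc⟩ := hRD
  have hsub : ∀ i, S0 Φ T v c i ⊆ {e : Finset W | e ∈ edg (contr y1 v Φ) ∧ ¬ e ⊆ T ∧ c e = i} :=
    fun i e he => ⟨F1 e he.1 he.2.1, he.2.2.1, he.2.2.2⟩
  have hB : ∀ i, LinearIndepOn (ZMod 2) (vec T a i) (S0 Φ T v c i) :=
    fun i => (hc i).mono (hsub i)
  have hspan : ∀ i, c {y1, y2} = i → vec T a i {y1, y2} ∉
      Submodule.span (ZMod 2) (vec T a i '' S0 Φ T v c i) := by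
    intro i hi
    have h1 : LinearIndepOn (ZMod 2) (vec T a i) (insert {y1, y2} (S0 Φ T v c i)) := by
      refine (hc i).mono ?_
      rintro e (rfl | he)
      · exact ⟨F2, hyT, hi⟩
      · exact hsub i he
    exact h1.notMem_span_of_insert (fun h => non h.1)
  rcases col3 (c {y1, y2}) (a v) (a y1) (a z1) vy vz yz with h | h | h
  · have h1 := hspan _ h
    rw [← vec_add T a (a v) z1 y1 y2 hyz11.symm hyz21.symm hy vz.symm vy.symm
      (by rw [← ay]; exact vy.symm)] at h1
    by_cases h2 : vec T a (a v) {z1, y1} ∈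
        Submodule.span (ZMod 2) (vec T a (a v) '' S0 Φ T v c (a v))
    · have h3 : vec T a (a v) {z1, y2} ∉
          Submodule.span (ZMod 2) (vec T a (a v) '' S0 Φ T v c (a v)) :=
        fun h3 => h1 (Submodule.add_mem _ h2 h3)
      refine case2 Φ T a v y2 y1 z1 z2 c hvT ay.symm az (by rw [← ay]; exact vy) vz
        (by rw [← ay]; exact yz) ?_ e4 hB h3
      intro e he hve
      rcases hE e he hve with h | h | h | h
      exacts [Or.inr (Or.inl h), Or.inl h, Or.inr (Or.inr (Or.inl h)),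
        Or.inr (Or.inr (Or.inr h))]
    · exact case2 Φ T a v y1 y2 z1 z2 c hvT ay az vy vz yz hE e3 hB h2
  · exfalso
    apply hspan _ h
    have h0 : vec T a (a y1) {y1, y2} = 0 := by
      funext x
      unfold vec
      rw [if_neg]
      · rfl
      · rintro ⟨-, -, h' | ⟨-, y, hy', h'⟩⟩
        · exact h' y1 (by simp) rfl
        · rw [mem_insert, mem_singleton] at hy'
          rcases hy' with rfl | rfl
          · exact h' rfl
          · exact h' ay.symm
    rw [h0]
    exact Submodule.zero_mem _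
  · exact case1 Φ T a v y1 y2 z1 z2 c hvT hy ay az vy vz yz hE hB (hspan _ h)

end Pool.Agent.R991.HB
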